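import Pool.Agent.H22FM.Sy8
import Pool.Agent.H22FM.Tw1

/-!
# Finite image modulo the nilradical
-/

set_option autoImplicit false

namespace Pool.Agent.H22FM

open Matrix IsLocalRing Pool.Agent.W569.FM Pool.Agent.TH831.OE Pool.Agent.TH831.NA

/-- the entries of the images -/
theorem push_sub {A O : Type} [CommRing A] [CommRing O] (φ : A →+* O) {n : ℕ}
    (ρ : GF ℚ →* GL (Fin n) A) (g : GF ℚ) :
    ((((GeneralLinearGroup.map φ).comp ρ) g : Matrix (Fin n) (Fin n) O) - 1) =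
      φ.mapMatrix ((ρ g : Matrix (Fin n) (Fin n) A) - 1) := by
  ext i j
  show φ _ - (1 : Matrix (Fin n) (Fin n) O) i j = φ (_ - (1 : Matrix (Fin n) (Fin n) A) i j)
  rw [map_sub]
  congr 1
  by_cases hij : i = j
  · rw [hij, Matrix.one_apply_eq, Matrix.one_apply_eq, map_one]
  · rw [Matrix.one_apply_ne hij, Matrix.one_apply_ne hij, map_zero]

theorem push_ent {A O : Type} [CommRing A] [CommRing O] (φ : A →+* O) {n : ℕ}
    (ρ : GF ℚ →* GL (Fin n) A) (g : GF ℚ) (i j : Fin n) :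
    ((((GeneralLinearGroup.map φ).comp ρ) g : Matrix (Fin n) (Fin n) O) - 1) i j =
      φ (((ρ g : Matrix (Fin n) (Fin n) A) - 1) i j) := by
  rw [push_sub]
  rfl

section
variable {A O : Type} [CommRing A] [CommRing O] [IsLocalRing A] [IsLocalRing O] (φ : A →+* O)
  [IsLocalHom φ] {n : ℕ} {ρ : GF ℚ →* GL (Fin n) A}

theorem push_cts (hcts : ∀ N : ℕ, ∀ᶠ g in nhds (1 : GF ℚ), MJ (maximalIdeal A ^ N)
      ((ρ g : Matrix (Fin n) (Fin n) A) - 1)) (N : ℕ) :
    ∀ᶠ g in nhds (1 : GF ℚ), MJ (maximalIdeal O ^ N)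
      ((((GeneralLinearGroup.map φ).comp ρ) g : Matrix (Fin n) (Fin n) O) - 1) := by
  filter_upwards [hcts N] with g hg i j
  rw [push_ent]
  exact map_max_pow φ (hg i j)

theorem push_res
    (hres : ∀ g, ∃ M : ℕ, MJ (maximalIdeal A) (((ρ g : Matrix (Fin n) (Fin n) A) - 1) ^ M))
    (g : GF ℚ) : ∃ M : ℕ, MJ (maximalIdeal O)
      (((((GeneralLinearGroup.map φ).comp ρ) g : Matrix (Fin n) (Fin n) O) - 1) ^ M) := by
  obtain ⟨M, hM⟩ := hres g
  refine ⟨M, fun i j => ?_⟩
  rw [push_sub, ← map_pow]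
  exact map_max φ (hM i j)

omit [IsLocalRing A] [IsLocalRing O] [IsLocalHom φ] in
theorem push_ur {S : Finset ℕ} (hur : ∀ g ∈ UrT S, ρ g = 1) :
    ∀ g ∈ UrT S, ((GeneralLinearGroup.map φ).comp ρ) g = 1 := fun g hg => by
  show GeneralLinearGroup.map φ (ρ g) = 1
  rw [hur g hg, map_one]

end

theorem fin_mod {p : ℕ} [hp : Fact p.Prime] {S : Finset ℕ}
    (hS : ∀ l ∈ S, l.Prime ∧ l ≠ p) {χ : ∀ j : ℕ, (ZMod j)ˣ →* Multiplicative (ZMod p)}
    (d : Dt p S χ) (hlev : ∀ l ∈ S, p ∣ l - 1 → ¬ p ∣ (l - 1) / p)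
    {A : Type} [CommRing A] [IsLocalRing A] [IsNoetherianRing A] (hfin : Finite (ResidueField A))
    (hpA : (p : A) ∈ maximalIdeal A) {n : ℕ} {ρ : GF ℚ →* GL (Fin n) A}
    (hcts : ∀ N : ℕ, ∀ᶠ g in nhds (1 : GF ℚ), MJ (maximalIdeal A ^ N)
      ((ρ g : Matrix (Fin n) (Fin n) A) - 1))
    (hres : ∀ g, ∃ M : ℕ, MJ (maximalIdeal A) (((ρ g : Matrix (Fin n) (Fin n) A) - 1) ^ M))
    (hur : ∀ g ∈ UrT S, ρ g = 1)
    (hpt : ∀ (O : Type) [CommRing O] [IsDomain O] [IsDiscreteValuationRing O] (φ : A →+* O)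
      [IsLocalHom φ], (p : O) ∈ maximalIdeal O →
      ∀ k ∈ S, p ∣ k - 1 → ∀ l ∈ S, p ∣ l - 1 →
        ((((GeneralLinearGroup.map φ).comp ρ) (d.τ k) : Matrix (Fin n) (Fin n) O) - 1) *
        ((((GeneralLinearGroup.map φ).comp ρ) (d.τ l) : Matrix (Fin n) (Fin n) O) - 1) = 0) :
    (Set.range ((GeneralLinearGroup.map (Ideal.Quotient.mk (nilradical A))).comp ρ)).Finite := by
  classical
  set N : Ideal A := nilradical A with hN
  have hNm : N ≤ maximalIdeal A := by
    rw [hN, nilradical_eq_sInf]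
    exact sInf_le (maximalIdeal.isMaximal A).isPrime
  have hNne : N ≠ ⊤ := fun h =>
    (maximalIdeal.isMaximal A).ne_top (top_le_iff.1 (h ▸ hNm))
  have hnt : Nontrivial (A ⧸ N) := Ideal.Quotient.nontrivial_iff.2 hNne
  have hloc : IsLocalRing (A ⧸ N) :=
    IsLocalRing.of_surjective' _ Ideal.Quotient.mk_surjective
  by_cases hF : N = maximalIdeal A
  · have hfinA : Finite (A ⧸ N) := by
      rw [hF]
      exact hfin
    have : Finite (GL (Fin n) (A ⧸ N)) := inferInstance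
    exact Set.toFinite _
  have hπl : IsLocalHom (Ideal.Quotient.mk N) :=
    IsLocalHom.of_surjective _ Ideal.Quotient.mk_surjective
  refine fin_of_prod hS d hlev (A := A ⧸ N) ?_ (push_cts (Ideal.Quotient.mk N) hcts)
    (push_res (Ideal.Quotient.mk N) hres) (push_ur (Ideal.Quotient.mk N) hur) ?_
  · have := map_max (Ideal.Quotient.mk N) hpA
    rwa [map_natCast] at this
  · intro k hk hpk l hl hpl
    rw [push_sub, push_sub, ← map_mul]
    ext i j
    rw [Matrix.zero_apply]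
    show Ideal.Quotient.mk N (((((ρ (d.τ k) : Matrix (Fin n) (Fin n) A) - 1)) *
      (((ρ (d.τ l) : Matrix (Fin n) (Fin n) A) - 1))) i j) = 0
    rw [Ideal.Quotient.eq_zero_iff_mem, hN, mem_nilradical]
    by_contra hcon
    obtain ⟨O, _, _, _, φ, hφ, hφa, _, hpO, -, -⟩ :=
      Pool.Agent.Results.MP_924d78_nt.NoetherianCoefficients.points hfin hpA hF hcon
    apply hφa
    have h1 := hpt O φ hpO k hk hpk l hl hpl
    rw [push_sub, push_sub, ← map_mul] at h1
    exact congrFun (congrFun h1 i) j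

/-- finite image if the ring is reduced -/
theorem fin_red {A : Type} [CommRing A] [IsReduced A] {n : ℕ} {ρ : GF ℚ →* GL (Fin n) A}
    (h : (Set.range ((GeneralLinearGroup.map (Ideal.Quotient.mk (nilradical A))).comp ρ)).Finite) :
    (Set.range ρ).Finite := by
  have hN0 : nilradical A = ⊥ := nilradical_eq_bot_iff.2 inferInstance
  have hinj : Function.Injective (GeneralLinearGroup.map (Ideal.Quotient.mk (nilradical A)) :
      GL (Fin n) A →* GL (Fin n) (A ⧸ nilradical A)) := by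
    rw [injective_iff_map_eq_one]
    intro M hM
    have h1 : MJ (nilradical A) ((M : Matrix (Fin n) (Fin n) A) - 1) := mem_cong.1 hM
    apply Units.ext
    rw [Units.val_one, ← sub_eq_zero]
    ext i j
    have h2 := h1 i j
    rw [hN0, Ideal.mem_bot] at h2
    exact h2
  have h3 : Set.range ((GeneralLinearGroup.map (Ideal.Quotient.mk (nilradical A))).comp ρ) =
      (GeneralLinearGroup.map (Ideal.Quotient.mk (nilradical A))) '' Set.range ρ := by
    rw [← Set.range_comp]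
    rfl
  rw [h3] at h
  exact (Set.finite_image_iff hinj.injOn).1 h

theorem lev_of {p : ℕ} [Fact p.Prime] {χ : ∀ j : ℕ, (ZMod j)ˣ →* Multiplicative (ZMod p)} {r : ℕ}
    {q : Fin r → ℕ} (hb : ¬ Bad r (N829.QD.dat χ q)) (i : Fin r) : ¬ p ∣ (q i - 1) / p := by
  intro h
  have hn : Nice fun s => algebraMap (ZMod p) (ZMod p) (vr (N829.QD.dat χ q) s) := by
    unfold Bad at hb
    push Not at hb
    exact hb (ZMod p)
  apply hn.1 i
  show algebraMap (ZMod p) (ZMod p) (((q i - 1) / p : ℕ) : ZMod p) = 0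
  rw [(ZMod.natCast_eq_zero_iff _ _).2 h, map_zero]

/-- symplectic representations over arbitrary Noetherian local rings -/
theorem sym_fin {p : ℕ} [hp : Fact p.Prime] (hp2 : 2 < p) {S : Finset ℕ}
    (hS : ∀ l ∈ S, l.Prime ∧ l ≠ p) {χ : ∀ j : ℕ, (ZMod j)ˣ →* Multiplicative (ZMod p)}
    (d : Dt p S χ) {r : ℕ} {q : Fin r → ℕ} (hq : Function.Injective q)
    (hb : ¬ Bad r (N829.QD.dat χ q)) (hT : ∀ l ∈ S, p ∣ l - 1 → l ∈ Set.range q)
    {A : Type} [CommRing A] [IsLocalRing A] [IsNoetherianRing A] (hfin : Finite (ResidueField A))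
    (hpA : (p : A) ∈ maximalIdeal A) {n : ℕ} {J : Matrix (Fin n) (Fin n) A}
    (hJ : Jᵀ = - J) (hJu : IsUnit J.det) {ρ : GF ℚ →* GL (Fin n) A}
    (hcts : ∀ N : ℕ, ∀ᶠ g in nhds (1 : GF ℚ), MJ (maximalIdeal A ^ N)
      ((ρ g : Matrix (Fin n) (Fin n) A) - 1))
    (hres : ∀ g, ∃ M : ℕ, MJ (maximalIdeal A) (((ρ g : Matrix (Fin n) (Fin n) A) - 1) ^ M))
    (hur : ∀ g ∈ UrT S, ρ g = 1)
    (hpres : ∀ l ∈ S, p ∣ l - 1 →
      (ρ (d.τ l) : Matrix (Fin n) (Fin n) A)ᵀ * J * (ρ (d.τ l) : Matrix (Fin n) (Fin n) A) = J)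
    (hmin : ∀ l ∈ S, p ∣ l - 1 → ∀ i j k m,
      ((ρ (d.τ l) : Matrix (Fin n) (Fin n) A) - 1) i j *
        ((ρ (d.τ l) : Matrix (Fin n) (Fin n) A) - 1) k m =
      ((ρ (d.τ l) : Matrix (Fin n) (Fin n) A) - 1) i m *
        ((ρ (d.τ l) : Matrix (Fin n) (Fin n) A) - 1) k j) :
    (Set.range ((GeneralLinearGroup.map (Ideal.Quotient.mk (nilradical A))).comp ρ)).Finite := by
  classical
  refine fin_mod hS d (fun l hl hpl => ?_) hfin hpA hcts hres hur ?_
  · obtain ⟨i, rfl⟩ := hT l hl hpl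
    exact lev_of hb i
  · intro O _ _ _ φ _ hpO
    refine dvr_prod hp2 hS d hq hb hT (A := O) hpO (J := J.map φ)
      (ρ := (GeneralLinearGroup.map φ).comp ρ) (by
        rw [← Matrix.transpose_map, hJ]
        ext i j
        simp) (by
        have h2 : (J.map φ).det = φ J.det := (RingHom.map_det φ J).symm
        rw [h2]
        exact hJu.map φ) (push_cts φ hcts) (push_res φ hres) (push_ur φ hur) (fun l hl hpl => by
        have h2 := congrArg (fun X : Matrix (Fin n) (Fin n) A => X.map φ) (hpres l hl hpl)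
        simp only [Matrix.map_mul, Matrix.transpose_map] at h2
        exact h2) (fun l hl hpl i j k m => by
        rw [push_ent, push_ent, push_ent, push_ent, ← map_mul, ← map_mul, hmin l hl hpl])

/-- representations of rank two with unipotent inertia over arbitrary Noetherian local rings -/
theorem two_fin {p : ℕ} [hp : Fact p.Prime] (hp2 : 2 < p) {S : Finset ℕ}
    (hS : ∀ l ∈ S, l.Prime ∧ l ≠ p) {χ : ∀ j : ℕ, (ZMod j)ˣ →* Multiplicative (ZMod p)}
    (d : Dt p S χ) {r : ℕ} {q : Fin r → ℕ} (hq : Function.Injective q)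
    (hb : ¬ Bad r (N829.QD.dat χ q)) (hT : ∀ l ∈ S, p ∣ l - 1 → l ∈ Set.range q)
    {A : Type} [CommRing A] [IsLocalRing A] [IsNoetherianRing A] (hfin : Finite (ResidueField A))
    (hpA : (p : A) ∈ maximalIdeal A) {ρ : GF ℚ →* GL (Fin 2) A}
    (hcts : ∀ N : ℕ, ∀ᶠ g in nhds (1 : GF ℚ), MJ (maximalIdeal A ^ N)
      ((ρ g : Matrix (Fin 2) (Fin 2) A) - 1))
    (hres : ∀ g, ∃ M : ℕ, MJ (maximalIdeal A) (((ρ g : Matrix (Fin 2) (Fin 2) A) - 1) ^ M))
    (hur : ∀ g ∈ UrT S, ρ g = 1)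
    (hun : ∀ l ∈ S, p ∣ l - 1 → ((ρ (d.τ l) : Matrix (Fin 2) (Fin 2) A) - 1) ^ 2 = 0) :
    (Set.range ((GeneralLinearGroup.map (Ideal.Quotient.mk (nilradical A))).comp ρ)).Finite := by
  classical
  refine fin_mod hS d (fun l hl hpl => ?_) hfin hpA hcts hres hur ?_
  · obtain ⟨i, rfl⟩ := hT l hl hpl
    exact lev_of hb i
  · intro O _ _ _ φ _ hpO
    have hM : ∀ l ∈ S, p ∣ l - 1 → ∀ M : Matrix (Fin 2) (Fin 2) O,
        M = (((GeneralLinearGroup.map φ).comp ρ) (d.τ l) : Matrix (Fin 2) (Fin 2) O) - 1 →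
        M 0 0 + M 1 1 = 0 ∧ M 0 0 * M 1 1 - M 0 1 * M 1 0 = 0 := by
      intro l hl hpl M hM
      have h1 : M * M = 0 := by
        rw [hM, push_sub, ← pow_two, ← map_pow, hun l hl hpl, map_zero]
      have hd : M.det = 0 := by
        have h2 := congrArg Matrix.det h1
        rw [Matrix.det_mul, Matrix.det_zero] at h2
        exact mul_self_eq_zero.1 h2
      have ht : M.trace = 0 :=
        (Matrix.isNilpotent_trace_of_isNilpotent ⟨2, by rw [pow_two, h1]⟩).eq_zero
      rw [Matrix.trace_fin_two] at ht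
      rw [Matrix.det_fin_two] at hd
      exact ⟨ht, hd⟩
    refine dvr_prod hp2 hS d hq hb hT (A := O) hpO (J := !![0, 1; -1, 0])
      (ρ := (GeneralLinearGroup.map φ).comp ρ) (by
        ext i j
        fin_cases i <;> fin_cases j <;> simp [Matrix.transpose_apply]) (by
        rw [Matrix.det_fin_two_of]
        simp) (push_cts φ hcts) (push_res φ hres) (push_ur φ hur) (fun l hl hpl => ?_)
        (fun l hl hpl => ?_)
    · obtain ⟨M, hMd⟩ : ∃ M : Matrix (Fin 2) (Fin 2) O, M =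
        (((GeneralLinearGroup.map φ).comp ρ) (d.τ l) : Matrix (Fin 2) (Fin 2) O) - 1 := ⟨_, rfl⟩
      obtain ⟨ht, hd⟩ := hM l hl hpl M hMd
      have hg : (((GeneralLinearGroup.map φ).comp ρ) (d.τ l) : Matrix (Fin 2) (Fin 2) O) =
          1 + M := by
        rw [hMd]
        abel
      rw [hg]
      ext i j
      fin_cases i <;> fin_cases j <;>
        simp [Matrix.mul_apply, Fin.sum_univ_two, Matrix.transpose_apply]
      · ring
      · linear_combination ht + hd
      · linear_combination - ht - hd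
      · ring
    · obtain ⟨M, hMd⟩ : ∃ M : Matrix (Fin 2) (Fin 2) O, M =
        (((GeneralLinearGroup.map φ).comp ρ) (d.τ l) : Matrix (Fin 2) (Fin 2) O) - 1 := ⟨_, rfl⟩
      obtain ⟨ht, hd⟩ := hM l hl hpl M hMd
      rw [← hMd]
      have hdet : M 0 0 * M 1 1 = M 0 1 * M 1 0 := by linear_combination hd
      intro i j k l
      fin_cases i <;> fin_cases j <;> fin_cases k <;> fin_cases l <;>
      first
        | rfl
        | exact mul_comm _ _
        | exact hdet
        | exact hdet.symm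
        | exact (mul_comm _ _).trans hdet
        | exact (mul_comm _ _).trans hdet.symm
        | exact hdet.trans (mul_comm _ _)
        | exact hdet.symm.trans (mul_comm _ _)
        | exact (mul_comm _ _).trans (hdet.trans (mul_comm _ _))
        | exact (mul_comm _ _).trans (hdet.symm.trans (mul_comm _ _))

end Pool.Agent.H22FM
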