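import Pool.Agent.H22FM.Sy7

/-!
# Arbitrary Noetherian local rings
-/

set_option autoImplicit false

namespace Pool.Agent.H22FM

open Matrix IsLocalRing Pool.Agent.W569.FM Pool.Agent.TH831.OE Pool.Agent.TH831.NA
open Pool.Agent.W569.TG (lk)
open Pool.Agent.Q202.RT (lv)

/-- the products vanish over discrete valuation rings, in any characteristic -/
theorem dvr_prod {p : ℕ} [hp : Fact p.Prime] (hp2 : 2 < p) {S : Finset ℕ}
    (hS : ∀ l ∈ S, l.Prime ∧ l ≠ p) {χ : ∀ j : ℕ, (ZMod j)ˣ →* Multiplicative (ZMod p)}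
    (d : Dt p S χ) {r : ℕ} {q : Fin r → ℕ} (hq : Function.Injective q)
    (hb : ¬ Bad r (N829.QD.dat χ q)) (hT : ∀ l ∈ S, p ∣ l - 1 → l ∈ Set.range q)
    {A : Type} [CommRing A] [IsDomain A] [IsDiscreteValuationRing A]
    (hpA : (p : A) ∈ maximalIdeal A) {n : ℕ} {J : Matrix (Fin n) (Fin n) A}
    (hJ : Jᵀ = - J) (hJu : IsUnit J.det) {ρ : GF ℚ →* GL (Fin n) A}
    (hcts : ∀ N : ℕ, ∀ᶠ g in nhds (1 : GF ℚ), MJ (maximalIdeal A ^ N)
      ((ρ g : Matrix (Fin n) (Fin n) A) - 1))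
    (hres : ∀ g, ∃ M : ℕ, MJ (maximalIdeal A) (((ρ g : Matrix (Fin n) (Fin n) A) - 1) ^ M))
    (hur : ∀ g ∈ UrT S, ρ g = 1)
    (hpres : ∀ l ∈ S, p ∣ l - 1 →
      (ρ (d.τ l) : Matrix (Fin n) (Fin n) A)ᵀ * J * (ρ (d.τ l) : Matrix (Fin n) (Fin n) A) = J)
    (hmin : ∀ l ∈ S, p ∣ l - 1 → ∀ i j k m,
      ((ρ (d.τ l) : Matrix (Fin n) (Fin n) A) - 1) i j *
        ((ρ (d.τ l) : Matrix (Fin n) (Fin n) A) - 1) k m =
      ((ρ (d.τ l) : Matrix (Fin n) (Fin n) A) - 1) i m *
        ((ρ (d.τ l) : Matrix (Fin n) (Fin n) A) - 1) k j) :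
    ∀ k ∈ S, p ∣ k - 1 → ∀ l ∈ S, p ∣ l - 1 →
      ((ρ (d.τ k) : Matrix (Fin n) (Fin n) A) - 1) *
        ((ρ (d.τ l) : Matrix (Fin n) (Fin n) A) - 1) = 0 := by
  classical
  set T := S.filter fun l => p ∣ l - 1 with hTd
  have hTm : ∀ l ∈ T, l ∈ S ∧ p ∣ l - 1 := fun l hl => Finset.mem_filter.1 hl
  set M : ℕ → Matrix (Fin n) (Fin n) A := fun l => (ρ (d.τ l) : Matrix (Fin n) (Fin n) A) - 1
    with hM
  have hM1 : ∀ l, (ρ (d.τ l) : Matrix (Fin n) (Fin n) A) = 1 + M l := fun l =>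
    (add_sub_cancel _ _).symm
  have hminT : ∀ l ∈ T, ∀ i j k m, M l i j * M l k m = M l i m * M l k j := fun l hl =>
    hmin l (hTm l hl).1 (hTm l hl).2
  have h2A : IsUnit (2 : A) := by
    by_contra h
    have h1 : (2 : A) ∈ maximalIdeal A := (mem_maximalIdeal _).2 h
    have hodd : p % 2 = 1 := by
      rcases hp.out.eq_two_or_odd with h | h
      · omega
      · exact h
    have h3 : (1 : A) = (p : A) - 2 * ((p / 2 : ℕ) : A) := by
      have h4 : p = 2 * (p / 2) + 1 := by omega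
      have h5 : (p : A) = 2 * ((p / 2 : ℕ) : A) + 1 := by
        calc (p : A) = ((2 * (p / 2) + 1 : ℕ) : A) := by rw [← h4]
          _ = _ := by push_cast; ring
      rw [h5]
      ring
    have h6 : (1 : A) ∈ maximalIdeal A := by
      rw [h3]
      exact Ideal.sub_mem _ hpA (Ideal.mul_mem_right _ _ h1)
    exact (Ideal.ne_top_iff_one _).1 (maximalIdeal.isMaximal A).ne_top h6
  have hsym : ∀ l ∈ T, (J * M l)ᵀ = J * M l := fun l hl => by
    refine sym_of h2A hJ (hminT l hl) ?_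
    rw [← hM1]
    exact hpres l (hTm l hl).1 (hTm l hl).2
  have hsq : ∀ l ∈ T, M l * M l = 0 := fun l hl =>
    sq_zero h2A hJ hJu (hsym l hl) (hminT l hl)
  obtain ⟨L, _, _, f, O, hinj, hle, hlt, hsmall⟩ := exists_val A
  set K : Matrix (Fin n) (Fin n) L := (J⁻¹).map f with hK
  have hKt : Kᵀ = - K := by
    rw [hK, ← Matrix.transpose_map, inv_skew hJ hJu]
    ext i j
    simp
  have hKle : ∀ i j, O.valuation (K i j) ≤ 1 := fun i j => hle _
  have hex : ∀ l, ∃ s : Fin n → L, l ∈ T → (J * M l).map f = vecMulVec s s := by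
    intro l
    by_cases hl : l ∈ T
    · obtain ⟨s, hs⟩ := exists_sqrt ((J * M l).map f) (by
        rw [← Matrix.transpose_map, hsym l hl]) (fun i j k m => by
        rw [Matrix.map_apply, Matrix.map_apply, Matrix.map_apply, Matrix.map_apply, ← map_mul,
          ← map_mul, min_mul (hminT l hl)])
      exact ⟨s, fun _ => hs⟩
    · exact ⟨0, fun h => absurd h hl⟩
  choose s hs using hex
  have hsle : ∀ j ∈ T, ∀ i, O.valuation (s j i) ≤ 1 := by
    intro j hj i
    have h1 := congrFun (congrFun (hs j hj) i) i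
    rw [vecMulVec_apply, Matrix.map_apply] at h1
    have h2 := hle ((J * M j) i i)
    rw [h1, map_mul] at h2
    by_contra hcon
    push Not at hcon
    exact absurd h2 (not_le.2 (one_lt_mul'' hcon hcon))
  have hMK : ∀ j ∈ T, (M j).map f = K * vecMulVec (s j) (s j) := by
    intro j hj
    rw [← hs j hj, hK, ← Matrix.map_mul, ← Matrix.mul_assoc, Matrix.nonsing_inv_mul J hJu,
      Matrix.one_mul]
  -- the relation
  set D : ℕ → Matrix (Fin n) (Fin n) A := fun l => (ρ (d.σ l) : Matrix (Fin n) (Fin n) A) - 1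
    with hD
  have hrel : ∀ l ∈ T, (1 + D l) * M l = (l : A) • (M l * (1 + D l)) := by
    intro l hl
    obtain ⟨hlS, hpl⟩ := hTm l hl
    have h1 := exact_relN hpA hcts hres (hS l hlS).1 (Ne.symm (hS l hlS).2)
      (d.hP l (hS l hlS).1).1 (d.hP l (hS l hlS).1).2 (d.hτ l hlS hpl) (d.hσ l (hS l hlS).1)
    have h2 := congrArg (fun M : GL (Fin n) A => (M : Matrix (Fin n) (Fin n) A)) h1
    simp only [Units.val_mul, Units.val_pow_eq_pow_val] at h2
    have h3 : (ρ (d.σ l) : Matrix (Fin n) (Fin n) A) = 1 + D l := (add_sub_cancel _ _).symm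
    rw [hM1, h3, pow_one_add (hsq l hl)] at h2
    have h4 : (1 + D l) * (1 + M l) = (1 + D l) + (1 + D l) * M l := by
      rw [Matrix.mul_add, Matrix.mul_one]
    have h5 : (1 + (l : A) • M l) * (1 + D l) = (1 + D l) + (l : A) • (M l * (1 + D l)) := by
      rw [Matrix.add_mul, Matrix.one_mul, Matrix.smul_mul]
    rw [h4, h5] at h2
    exact add_left_cancel h2
  have hlev : ∀ l ∈ T, l = p * ((l - 1) / p) + 1 ∧ ¬ p ∣ (l - 1) / p := by
    intro l hl
    obtain ⟨hlS, hpl⟩ := hTm l hl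
    have hlp := (hS l hlS).1
    refine ⟨by
      rw [Nat.mul_div_cancel' hpl]
      have := hlp.two_le
      omega, fun h => ?_⟩
    have hn : Nice fun s => algebraMap (ZMod p) (ZMod p) (vr (N829.QD.dat χ q) s) := by
      unfold Bad at hb
      push Not at hb
      exact hb (ZMod p)
    obtain ⟨i, rfl⟩ := hT l hlS hpl
    apply hn.1 i
    show algebraMap (ZMod p) (ZMod p) (((q i - 1) / p : ℕ) : ZMod p) = 0
    rw [(ZMod.natCast_eq_zero_iff _ _).2 h, map_zero]
  have hfp : O.valuation (f (p : A)) < 1 := hlt _ hpA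
  -- the Gram matrix
  have hgram : ∀ k ∈ T, ∀ l ∈ T, O.valuation (bG K s k l) < 1 := by
    intro k hk l hl
    have h1 : f (M k * M l).trace = - (bG K s k l) ^ 2 := by
      have h2 : f (M k * M l).trace = ((M k).map f * (M l).map f).trace := by
        rw [← Matrix.map_mul, Matrix.trace, Matrix.trace, map_sum]
        rfl
      have h3 : s k ⬝ᵥ (K *ᵥ s l) = bG K s k l := by
        unfold bG bE
        rw [Matrix.one_mulVec]
      have h4 : K *ᵥ s k ⬝ᵥ s l = bG K s l k := by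
        unfold bG bE
        rw [Matrix.one_mulVec, dotProduct_comm]
      rw [h2, hMK k hk, hMK l hl, Matrix.mul_assoc, Matrix.mul_vecMulVec, Matrix.mul_vecMulVec,
        vecMulVec_mulVec, op_smul_eq_smul, h3, Matrix.smul_vecMulVec, Matrix.mul_smul,
        Matrix.trace_smul, Matrix.mul_vecMulVec, Matrix.trace_vecMulVec, h4, bG_skew hKt k l,
        smul_eq_mul]
      ring
    have h5 : (M k * M l).trace ∈ maximalIdeal A := by
      have h6 : M k * M l = ((ρ (d.τ k * d.τ l) : Matrix (Fin n) (Fin n) A) - 1) - M k - M l := by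
        rw [map_mul, Units.val_mul, hM1, hM1]
        noncomm_ring
      rw [h6, Matrix.trace_sub, Matrix.trace_sub]
      exact Ideal.sub_mem _ (Ideal.sub_mem _ (trace_mem (hres _)) (trace_mem (hres _)))
        (trace_mem (hres _))
    have h7 := hlt _ h5
    rw [h1, Valuation.map_neg, map_pow] at h7
    by_contra hcon
    push Not at hcon
    exact absurd h7 (not_lt.2 (one_le_pow₀ hcon))
  -- the residue field
  have hp0κ : (p : ResidueField O) = 0 := by
    rw [← rs_nat]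
    apply rs_lt
    rw [map_natCast] at hfp
    exact hfp
  have hchar : CharP (ResidueField O) p := by
    have : CharP (ResidueField O) p := by
      refine (CharP.charP_iff_prime_eq_zero hp.out).2 hp0κ
    exact this
  let _ : Algebra (ZMod p) (ResidueField O) := ZMod.algebra _ p
  set a : ℕ → ℕ → ℕ := fun l j => (Multiplicative.toAdd (d.ψ j (d.σ l))).val with ha
  have haκ : ∀ l ∈ T, ∀ j ∈ T, j ≠ l →
      (a l j : ResidueField O) = algebraMap (ZMod p) (ResidueField O) (lk χ l j) := by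
    intro l hl j hj hjl
    obtain ⟨hlS, hpl⟩ := hTm l hl
    obtain ⟨hjS, hpj⟩ := hTm j hj
    have hc : Nat.Coprime l j :=
      (Nat.coprime_primes (hS l hlS).1 (hS j hjS).1).2 (Ne.symm hjl)
    have h1 : Multiplicative.toAdd (d.ψ j (d.σ l)) = lk χ l j := by
      unfold lk
      rw [dif_pos hc, d.hlam j hjS hpj l (hS l hlS).1 (Ne.symm hjl) (ZMod.unitOfCoprime l hc)
        (ZMod.coe_unitOfCoprime l hc)]
    rw [ha]
    show (((Multiplicative.toAdd (d.ψ j (d.σ l))).val : ℕ) : ResidueField O) = _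
    rw [h1, ← map_natCast (algebraMap (ZMod p) (ResidueField O)), ZMod.natCast_zmod_val]
  have hG0 := gram_zero hp.out hp2 O f hle hfp (K := K) (s := s) (M := M) (T := T) hKt hKle hsle
    hMK a D (fun l => (l - 1) / p) hrel hlev (fun γ hγ => by
      obtain ⟨N, hN⟩ := hsmall γ hγ
      refine ⟨maximalIdeal A ^ N, hN, fun l hl => ?_⟩
      exact expand hpA d hcts hres hur N (d.σ l)) hgram
    (fun h c hs' hr => nice_use hp2 hq hb (fun l hl => hT l (hTm l hl).1 (hTm l hl).2) a haκ h c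
      hs' hr)
  -- products vanish
  have hprod : ∀ k ∈ T, ∀ l ∈ T, M k * M l = 0 := by
    intro k hk l hl
    have h1 : (M k * M l).map f = 0 := by
      have h3 : s k ⬝ᵥ (K *ᵥ s l) = bG K s k l := by
        unfold bG bE
        rw [Matrix.one_mulVec]
      rw [Matrix.map_mul, hMK k hk, hMK l hl, Matrix.mul_assoc, Matrix.mul_vecMulVec,
        Matrix.mul_vecMulVec, vecMulVec_mulVec, op_smul_eq_smul, h3, hG0 k hk l hl, zero_smul,
        Matrix.zero_vecMulVec, Matrix.mul_zero]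
    ext i j
    apply hinj
    rw [Matrix.zero_apply, map_zero]
    exact congrFun (congrFun h1 i) j
  exact fun k hk hpk l hl hpl => hprod k (Finset.mem_filter.2 ⟨hk, hpk⟩) l
    (Finset.mem_filter.2 ⟨hl, hpl⟩)


/-- the shape of the representation if the products vanish -/
theorem fin_of_prod {p : ℕ} [hp : Fact p.Prime] {S : Finset ℕ}
    (hS : ∀ l ∈ S, l.Prime ∧ l ≠ p) {χ : ∀ j : ℕ, (ZMod j)ˣ →* Multiplicative (ZMod p)}
    (d : Dt p S χ) (hlev : ∀ l ∈ S, p ∣ l - 1 → ¬ p ∣ (l - 1) / p)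
    {A : Type} [CommRing A] [IsLocalRing A] [IsNoetherianRing A]
    (hpA : (p : A) ∈ maximalIdeal A) {n : ℕ} {ρ : GF ℚ →* GL (Fin n) A}
    (hcts : ∀ N : ℕ, ∀ᶠ g in nhds (1 : GF ℚ), MJ (maximalIdeal A ^ N)
      ((ρ g : Matrix (Fin n) (Fin n) A) - 1))
    (hres : ∀ g, ∃ M : ℕ, MJ (maximalIdeal A) (((ρ g : Matrix (Fin n) (Fin n) A) - 1) ^ M))
    (hur : ∀ g ∈ UrT S, ρ g = 1)
    (hprod : ∀ k ∈ S, p ∣ k - 1 → ∀ l ∈ S, p ∣ l - 1 →
      ((ρ (d.τ k) : Matrix (Fin n) (Fin n) A) - 1) *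
        ((ρ (d.τ l) : Matrix (Fin n) (Fin n) A) - 1) = 0) :
    (Set.range ρ).Finite := by
  classical
  set T := S.filter fun l => p ∣ l - 1 with hTd
  have hTm : ∀ l ∈ T, l ∈ S ∧ p ∣ l - 1 := fun l hl => Finset.mem_filter.1 hl
  set M : ℕ → Matrix (Fin n) (Fin n) A := fun l => (ρ (d.τ l) : Matrix (Fin n) (Fin n) A) - 1
    with hM
  have hM1 : ∀ l, (ρ (d.τ l) : Matrix (Fin n) (Fin n) A) = 1 + M l := fun l =>
    (add_sub_cancel _ _).symm
  have hprodT : ∀ k ∈ T, ∀ l ∈ T, M k * M l = 0 := fun k hk l hl =>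
    hprod k (hTm k hk).1 (hTm k hk).2 l (hTm l hl).1 (hTm l hl).2
  have hW2 : Wd M T 2 = ⊥ := by
    unfold Wd
    rw [Submodule.span_eq_bot]
    rintro _ ⟨w, hw1, hw2, rfl⟩
    match w, hw1, hw2 with
    | [], h, _ => simp at h
    | [_], h, _ => simp at h
    | x :: y :: w, _, hw =>
      rw [List.map_cons, List.map_cons, List.prod_cons, List.prod_cons, ← Matrix.mul_assoc,
        hprodT x (hw x (by simp)) y (hw y (by simp)), Matrix.zero_mul]
  have hpM : ∀ l ∈ T, (p : A) • M l = 0 := by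
    intro l hl
    obtain ⟨hlS, hpl⟩ := hTm l hl
    have hlp := (hS l hlS).1
    have hlv : l = p * ((l - 1) / p) + 1 := by
      rw [Nat.mul_div_cancel' hpl]
      have := hlp.two_le
      omega
    obtain ⟨v, hv⟩ := isUnit_of_not_dvd hp.out hpA (hlev l hlS hpl)
    set D : Matrix (Fin n) (Fin n) A := (ρ (d.σ l) : Matrix (Fin n) (Fin n) A) - 1 with hD
    have h1 := exact_relN hpA hcts hres hlp (Ne.symm (hS l hlS).2)
      (d.hP l hlp).1 (d.hP l hlp).2 (d.hτ l hlS hpl) (d.hσ l hlp)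
    have h2 := congrArg (fun M : GL (Fin n) A => (M : Matrix (Fin n) (Fin n) A)) h1
    simp only [Units.val_mul, Units.val_pow_eq_pow_val] at h2
    have h3 : (ρ (d.σ l) : Matrix (Fin n) (Fin n) A) = 1 + D := (add_sub_cancel _ _).symm
    rw [hM1, h3, pow_one_add (hprodT l hl l hl)] at h2
    have h4 : (1 + D) * (1 + M l) = (1 + D) + (M l + D * M l) := by
      rw [Matrix.mul_add, Matrix.mul_one, Matrix.add_mul, Matrix.one_mul]
    have h5 : (1 + (l : A) • M l) * (1 + D) =
        (1 + D) + ((l : A) • M l + (l : A) • (M l * D)) := by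
      rw [Matrix.add_mul, Matrix.one_mul, Matrix.smul_mul, Matrix.mul_add, Matrix.mul_one,
        smul_add]
    rw [h4, h5] at h2
    have h6 := add_left_cancel h2
    have h8 : (l : A) = (p : A) * (v : A) + 1 := by
      rw [hv]
      calc (l : A) = ((p * ((l - 1) / p) + 1 : ℕ) : A) := by rw [← hlv]
        _ = _ := by push_cast; ring
    have hinv : (v : A) * ((v⁻¹ : Aˣ) : A) = 1 := Units.mul_inv v
    have hN : ∀ N : ℕ, MJ (maximalIdeal A ^ N) (D * M l) ∧ MJ (maximalIdeal A ^ N) (M l * D) := by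
      intro N
      have h3 := mem_VV hpA d hcts hres hur N (d.σ l)
      obtain ⟨x, hx, y, hy, hxy⟩ := Submodule.mem_sup.1 h3
      have hxy' : D = x + y := hxy.symm
      rw [hxy', Matrix.add_mul, Matrix.mul_add]
      have h5 : x * M l = 0 := by
        have := Wd_mul hx (Wd_one (M := M) hl)
        norm_num at this
        rw [hW2] at this
        exact (Submodule.mem_bot A).1 this
      have h6 : M l * x = 0 := by
        have := Wd_mul (Wd_one (M := M) hl) hx
        norm_num at this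
        rw [hW2] at this
        exact (Submodule.mem_bot A).1 this
      rw [h5, h6, zero_add, zero_add]
      exact ⟨MS_mul_right hy, MS_mul_left hy⟩
    ext i j
    rw [Matrix.smul_apply, Matrix.zero_apply, smul_eq_mul]
    have h7 := congrFun (congrFun h6 i) j
    rw [Matrix.add_apply, Matrix.add_apply, Matrix.smul_apply, Matrix.smul_apply, smul_eq_mul,
      smul_eq_mul] at h7
    have h9 : (p : A) * M l i j =
        ((v⁻¹ : Aˣ) : A) * ((D * M l) i j - (l : A) * (M l * D) i j) := by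
      linear_combination (- ((v⁻¹ : Aˣ) : A)) * h7 - (((v⁻¹ : Aˣ) : A) * M l i j) * h8 -
        ((p : A) * M l i j) * hinv
    have h10 : (p : A) * M l i j ∈ ⨅ N : ℕ, maximalIdeal A ^ N := by
      rw [Ideal.mem_iInf]
      intro N
      rw [h9]
      exact Ideal.mul_mem_left _ _ (Ideal.sub_mem _ ((hN N).1 i j)
        (Ideal.mul_mem_left _ _ ((hN N).2 i j)))
    rw [Ideal.iInf_pow_eq_bot_of_isLocalRing _ (maximalIdeal.isMaximal A).ne_top] at h10
    exact h10
  have hpW : (Wd M T 1).map (LinearMap.lsmul A _ (p : A)) = ⊥ := by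
    rw [eq_bot_iff, Submodule.map_le_iff_le_comap]
    unfold Wd
    rw [Submodule.span_le]
    rintro _ ⟨w, hw1, hw2, rfl⟩
    match w, hw1, hw2 with
    | [], h, _ => simp at h
    | x :: w, _, hw =>
      show (p : A) • (((x :: w).map M).prod) ∈ (⊥ : Submodule A (Matrix (Fin n) (Fin n) A))
      rw [Submodule.mem_bot]
      rw [List.map_cons, List.prod_cons, ← Matrix.smul_mul, hpM x (hw x (by simp)),
        Matrix.zero_mul]
  have hform : ∀ g, (ρ g : Matrix (Fin n) (Fin n) A) = 1 +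
      ∑ l ∈ T, (Multiplicative.toAdd (d.ψ l g)).val • M l := by
    intro g
    rw [← sub_eq_iff_eq_add', ← sub_eq_zero]
    ext i j
    have h10 : ((ρ g : Matrix (Fin n) (Fin n) A) - 1 -
        ∑ l ∈ T, (Multiplicative.toAdd (d.ψ l g)).val • M l) i j ∈
          ⨅ N : ℕ, maximalIdeal A ^ N := by
      rw [Ideal.mem_iInf]
      intro N
      have h1 := expand hpA d hcts hres hur N g
      have h2 : UU p M T (maximalIdeal A ^ N) = MS n (maximalIdeal A ^ N) := by
        unfold UU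
        rw [hpW, hW2, bot_sup_eq, bot_sup_eq]
      have h3 : (ρ g : Matrix (Fin n) (Fin n) A) - 1 -
        ∑ l ∈ T, (Multiplicative.toAdd (d.ψ l g)).val • M l ∈ UU p M T (maximalIdeal A ^ N) := h1
      rw [h2] at h3
      exact h3 i j
    rw [Ideal.iInf_pow_eq_bot_of_isLocalRing _ (maximalIdeal.isMaximal A).ne_top] at h10
    exact h10
  have hfinS : (Set.range fun g => (fun l : T => d.ψ l.1 g)).Finite := Set.toFinite _
  have hinj : Set.InjOn (fun x : GL (Fin n) A => (x : Matrix (Fin n) (Fin n) A)) (Set.range ρ) :=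
    fun x _ y _ hxy => Units.ext hxy
  refine Set.Finite.of_finite_image ?_ hinj
  refine (hfinS.image (fun ψ : T → Multiplicative (ZMod p) => (1 : Matrix (Fin n) (Fin n) A) +
      ∑ l : T, (Multiplicative.toAdd (ψ l)).val • M l.1)).subset ?_
  rintro _ ⟨_, ⟨g, rfl⟩, rfl⟩
  refine ⟨_, ⟨g, rfl⟩, ?_⟩
  show (1 : Matrix (Fin n) (Fin n) A) + ∑ l : T, (Multiplicative.toAdd (d.ψ l.1 g)).val • M l.1 =
    (ρ g : Matrix (Fin n) (Fin n) A)
  rw [hform g]
  congr 1
  exact Finset.sum_coe_sort T (fun l => (Multiplicative.toAdd (d.ψ l g)).val • M l)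

end Pool.Agent.H22FM
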